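import Pool.Agent.Helper46.LZ.Aux1
import Pool.Agent.Helper13.LZ.Spec
import Pool.Graph.R_pool_sql_team_seeded_63374d34.N784.HC.Good2

/-!
# P2: the Hecke L-functions, shifted vertically, satisfy `GoodB`
-/

set_option autoImplicit false

open NumberField Complex Filter Topology MeasureTheory

namespace Pool.Agent.Helper46.LZ

open Pool.Agent.N784.HC
open Pool.Agent.Y773 (LI cc)
open Pool.Agent.Y773.G (cj)
open Pool.Agent.Y773.IQ (LL LL_eq)
open Pool.Agent.Helper13.LZ (GoodB StP2)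
open ArithmeticFunction (vonMangoldt)
open Pool.Agent.A856.BH.GoodLHAux (order_shift norm_cpow_I)

/-- growth to the right of `-1/2` -/
theorem F_right {ι : Type} [Fintype ι] {R V B : ℝ} (hR : 1 ≤ R) (hV : 0 ≤ V) {μ : ι → ℝ}
    (hμ : ∀ i, 0 ≤ μ i ∧ μ i ≤ V) {F : ℂ → ℂ} (hF : FEm R μ F)
    (hB : ∀ s : ℂ, 3 / 2 ≤ s.re → ‖F s‖ ≤ B) (z : ℂ) (hz : -1 / 2 ≤ z.re) :
    ‖F z‖ ≤ 2 * B * R * (1 + V) ^ Fintype.card ι * 3 ^ Fintype.card ι *
      (1 + ‖z‖) ^ Fintype.card ι := by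
  have hB0 : 0 ≤ B := (norm_nonneg _).trans (hB (3 / 2) (by norm_num))
  set d := Fintype.card ι with hd
  have hF' : FEm (R * 1) μ F := by rwa [mul_one]
  have h1z : 1 ≤ 1 + ‖z‖ := by linarith [norm_nonneg z]
  have hp : 1 ≤ (1 + ‖z‖) ^ d := one_le_pow₀ h1z
  have hV1 : 1 ≤ (1 + V) ^ d := one_le_pow₀ (by linarith)
  have h31 : (1 : ℝ) ≤ 3 ^ d := one_le_pow₀ (by norm_num)
  have hBR : B ≤ B * R * (1 + V) ^ d * 3 ^ d := by
    have e1 : B ≤ B * R := le_mul_of_one_le_right hB0 hR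
    have e2 : B * R ≤ B * R * (1 + V) ^ d := le_mul_of_one_le_right (by positivity) hV1
    have e3 : B * R * (1 + V) ^ d ≤ B * R * (1 + V) ^ d * 3 ^ d :=
      le_mul_of_one_le_right (by positivity) h31
    linarith
  have hK0 : 0 ≤ B * R * (1 + V) ^ d * 3 ^ d := by positivity
  rcases le_total z.re (3 / 2) with h | h
  · have e1 := HH_boundM hR le_rfl hV hμ hF' hB z hz h
    rw [← hd] at e1
    unfold Pool.Agent.Y772.FE.HH at e1
    have e0 : ((1 : ℝ) : ℂ) ^ ((z - 3 / 2) / 2) = 1 := by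
      rw [Complex.ofReal_one, Complex.one_cpow]
    rw [e0, mul_one, norm_mul, norm_inv, norm_pow] at e1
    have hne : z + 3 ≠ 0 := by
      intro h0
      have h1 := congrArg Complex.re h0
      simp at h1
      linarith
    have hpos : 0 < ‖z + 3‖ ^ d := by positivity
    have e2 : ‖F z‖ ≤ B * R * (1 + V) ^ d * ‖z + 3‖ ^ d := by
      rw [← div_eq_mul_inv, div_le_iff₀ hpos] at e1
      exact e1
    have e3 : ‖z + 3‖ ≤ 3 * (1 + ‖z‖) := by
      have h1 := norm_add_le z 3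
      have h2 : ‖(3 : ℂ)‖ = 3 := by simp
      rw [h2] at h1
      linarith [norm_nonneg z]
    have e4 : ‖z + 3‖ ^ d ≤ 3 ^ d * (1 + ‖z‖) ^ d := by
      rw [← mul_pow]
      exact pow_le_pow_left₀ (norm_nonneg _) e3 d
    calc ‖F z‖ ≤ B * R * (1 + V) ^ d * ‖z + 3‖ ^ d := e2
      _ ≤ B * R * (1 + V) ^ d * (3 ^ d * (1 + ‖z‖) ^ d) :=
          mul_le_mul_of_nonneg_left e4 (by positivity)
      _ = (B * R * (1 + V) ^ d * 3 ^ d) * (1 + ‖z‖) ^ d := by ring
      _ ≤ (2 * B * R * (1 + V) ^ d * 3 ^ d) * (1 + ‖z‖) ^ d := by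
          apply mul_le_mul_of_nonneg_right _ (by positivity)
          linarith
      _ = _ := by ring
  · calc ‖F z‖ ≤ B := hB z h
      _ ≤ 2 * B * R * (1 + V) ^ d * 3 ^ d := by linarith
      _ ≤ 2 * B * R * (1 + V) ^ d * 3 ^ d * (1 + ‖z‖) ^ d :=
          le_mul_of_one_le_right (by linarith) hp

/-- the shifts are at least `1/2` -/
lemma ex_ge {K : Type} [Field K] [NumberField K] {n : (K →+* ℂ) → ℕ}
    (hnn : ∀ φ, 1 ≤ n φ + n (cj φ)) (e : InfinitePlace K → ℕ) (φ : K →+* ℂ) :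
    1 / 2 ≤ ex (fty n e) φ := by
  have h1 : ∀ w : InfinitePlace K, 1 ≤ NW (fty n e) w := by
    intro w
    have h2 := hnn w.embedding
    unfold NW fty
    split_ifs with hw
    · have h3 : cj w.embedding = w.embedding := by
        rw [InfinitePlace.isReal_iff] at hw
        exact hw
      rw [h3] at h2
      omega
    · omega
  have h4 : (1 : ℝ) ≤ NW (fty n e) (InfinitePlace.mk φ) := by
    exact_mod_cast h1 (InfinitePlace.mk φ)
  unfold ex
  split_ifs <;> linarith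

/-- P2 -/
theorem p2 : StP2 := by
  intro K _ _ n hn hnn
  have hn0 : n ≠ 0 := by
    intro h
    obtain ⟨φ⟩ : Nonempty (K →+* ℂ) := inferInstance
    have := hnn φ
    rw [h] at this
    simp at this
  obtain ⟨A₀, hA₀, hDir⟩ := Pool.Agent.Y772.DK.t_dirK K
  obtain ⟨V, hV⟩ : ∃ V : ℝ, V = (∑ ψ, (n ψ : ℝ)) + 3 := ⟨_, rfl⟩
  have hV0 : 0 ≤ V := by rw [hV]; positivity
  obtain ⟨j, hj⟩ := exists_nat_ge V
  obtain ⟨C, hC0, hC⟩ := left_bdm (K →+* ℂ) j
  obtain ⟨D, hD⟩ : ∃ D : ℝ, D = ((Ideal.absNorm (differentIdeal ℤ (𝓞 K)) : ℕ) : ℝ) := ⟨_, rfl⟩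
  have hD1 : 1 ≤ D := by
    have h1 : Ideal.absNorm (differentIdeal ℤ (𝓞 K)) ≠ 0 := by
      rw [Ne, Ideal.absNorm_eq_zero_iff]
      exact differentIdeal_ne_bot
    rw [hD]
    exact_mod_cast Nat.one_le_iff_ne_zero.2 h1
  have hlD : 0 ≤ Real.log D := Real.log_nonneg hD1
  obtain ⟨d, hd⟩ : ∃ d : ℕ, d = Fintype.card (K →+* ℂ) := ⟨_, rfl⟩
  have hd0 : (0 : ℝ) ≤ d := Nat.cast_nonneg d
  have hV1 : 1 ≤ (1 + V) ^ d := one_le_pow₀ (by linarith)
  have h15 : (1 : ℝ) ≤ 15 ^ d := one_le_pow₀ (by norm_num)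
  obtain ⟨M, hM⟩ : ∃ M : ℝ, M = 2 * A₀ * D * (1 + V) ^ d * 15 ^ d := ⟨_, rfl⟩
  have hM1 : 1 ≤ M := by
    rw [hM]
    have e1 : 1 ≤ 2 * A₀ * D := by nlinarith
    have e2 : 1 ≤ 2 * A₀ * D * (1 + V) ^ d := one_le_mul_of_one_le_of_one_le e1 hV1
    exact one_le_mul_of_one_le_of_one_le e2 h15
  have hlM : 0 ≤ Real.log M := Real.log_nonneg hM1
  obtain ⟨A, hA⟩ : ∃ A : ℝ, A = Real.log M + 2 + 3 * d + A₀ + (Module.finrank ℚ K : ℝ) +
    (Real.log D + C) := ⟨_, rfl⟩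
  have hf0 : (0 : ℝ) ≤ Module.finrank ℚ K := Nat.cast_nonneg _
  have hA1 : 1 ≤ A := by rw [hA]; linarith
  have hAg : Real.log M + 2 + d ≤ A := by rw [hA]; linarith
  have hAl : A₀ ≤ A := by rw [hA]; linarith
  have hAf : (Module.finrank ℚ K : ℝ) ≤ A := by rw [hA]; linarith
  have hAd : Real.log D + C + 2 * d ≤ A := by rw [hA]; linarith
  refine ⟨A, hA1, ?_⟩
  intro 𝔣 ψ htop h w H E ℒ hH hE hEL hNL
  obtain ⟨e, he, hc, hmod⟩ := h.modK htop
  have hprimK := h.primK htop (e := e) hc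
  have htyp := hn.fty he hc
  have hinf := inf_fty hn hn0 e
  have hψ1 : ∀ 𝔞, ‖ψ 𝔞‖ ≤ 1 := hmod.norm_le_one
  obtain ⟨d1, d2, d3, d4, d5, d6, d7, -, d8, d9, -⟩ := hDir ψ hψ1
  obtain ⟨F, hFE, hFL⟩ := fe_prim htyp hinf.ne hprimK hmod
  have hF : Differentiable ℂ F := hFE.diff
  rw [LL_eq K hF hFL]
  have hN1 : (1 : ℝ) ≤ ((Ideal.absNorm 𝔣 : ℕ) : ℝ) := by
    have h1 : Ideal.absNorm 𝔣 ≠ 0 := by
      rw [Ne, Ideal.absNorm_eq_zero_iff]
      exact h.ne_bot
    exact_mod_cast Nat.one_le_iff_ne_zero.2 h1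
  have hN0 : (0 : ℝ) < ((Ideal.absNorm 𝔣 : ℕ) : ℝ) := by linarith
  obtain ⟨R, hR⟩ : ∃ R : ℝ,
    R = ((Ideal.absNorm 𝔣 * Ideal.absNorm (differentIdeal ℤ (𝓞 K)) : ℕ) : ℝ) := ⟨_, rfl⟩
  rw [← hR] at hFE
  have hRe : R = ((Ideal.absNorm 𝔣 : ℕ) : ℝ) * D := by
    rw [hR, hD]
    push_cast
    ring
  have hR1 : 1 ≤ R := by
    rw [hRe]
    exact one_le_mul_of_one_le_of_one_le hN1 hD1
  have hμ : ∀ i, 0 ≤ ex (fty n e) i ∧ ex (fty n e) i ≤ V :=
    fun w => ⟨ex_nonneg _ _, by rw [hV]; exact ex_le K he w⟩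
  have hμ2 : ∀ i, 1 / 2 ≤ ex (fty n e) i ∧ ex (fty n e) i ≤ j :=
    fun w => ⟨ex_ge hnn e w, (hμ w).2.trans hj⟩
  obtain ⟨c1, c2, c3⟩ := hC R (by linarith) _ hμ2 F hFE
  have hnz : ∀ s : ℂ, 1 ≤ s.re → F s ≠ 0 := by
    intro s h1
    rcases lt_or_eq_of_le h1 with h3 | h3
    · rw [hFL _ h3]
      exact d3 _ h3
    · exact nv_K htyp hinf hmod h3.symm (hF.analyticAt s) (Eventually.of_forall hFL)
  have hB : ∀ s : ℂ, 3 / 2 ≤ s.re → ‖F s‖ ≤ A₀ := by
    intro s hs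
    rw [hFL s (by linarith)]
    exact d5 s hs
  have hw0 := abs_nonneg w
  have hlogH : 0 ≤ Real.log (1 + H + |w|) := Real.log_nonneg (by linarith)
  have hE1 : 1 ≤ E := by linarith
  have hL1 : 1 ≤ ℒ := by linarith
  have hre : ∀ s : ℂ, (s - (w : ℂ) * I).re = s.re := by intro s; simp
  have him : ∀ s : ℂ, (s - (w : ℂ) * I).im = s.im - w := by intro s; simp
  have hosc : ∀ s : ℂ, 1 - (starRingEnd ℂ) s - (w : ℂ) * I =
      1 - (starRingEnd ℂ) (s - (w : ℂ) * I) := by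
    intro s
    simp only [map_sub, map_mul, Complex.conj_ofReal, Complex.conj_I]
    ring
  have himH : ∀ s : ℂ, |s.im| ≤ H → |(s - (w : ℂ) * I).im| ≤ H + |w| := by
    intro s hs
    rw [him]
    refine (abs_sub _ _).trans ?_
    linarith
  have hder : ∀ s : ℂ, deriv (fun z => F (z - (w : ℂ) * I)) s =
      deriv F (s - (w : ℂ) * I) := by
    intro s
    exact deriv_comp_sub_const F ((w : ℂ) * I) s
  have hlN : 0 ≤ Real.log ((Ideal.absNorm 𝔣 : ℕ) : ℝ) := Real.log_nonneg hN1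
  constructor
  · exact hA1
  · exact hL1
  · exact hE1
  · exact hEL
  · exact hlN
  · exact hNL
  · exact hF.comp (differentiable_id.sub_const _)
  · -- growth
    intro s h1 h2 h3
    have g := F_right hR1 hV0 hμ hFE hB (s - (w : ℂ) * I) (by rw [hre]; linarith)
    rw [← hd] at g
    have hn4 : ‖s - (w : ℂ) * I‖ ≤ 4 + H + |w| := by
      refine (Complex.norm_le_abs_re_add_abs_im _).trans ?_
      have := himH s h3
      rw [hre, abs_of_nonneg (by linarith : (0 : ℝ) ≤ s.re)]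
      linarith
    have hP : (1 + ‖s - (w : ℂ) * I‖) ^ d ≤ 5 ^ d * (1 + H + |w|) ^ d := by
      rw [← mul_pow]
      exact pow_le_pow_left₀ (by positivity) (by linarith) d
    have h5 : ‖F (s - (w : ℂ) * I)‖ ≤ M * ((Ideal.absNorm 𝔣 : ℕ) : ℝ) * (1 + H + |w|) ^ d := by
      refine g.trans ?_
      calc 2 * A₀ * R * (1 + V) ^ d * 3 ^ d * (1 + ‖s - (w : ℂ) * I‖) ^ d
          ≤ 2 * A₀ * R * (1 + V) ^ d * 3 ^ d * (5 ^ d * (1 + H + |w|) ^ d) :=
            mul_le_mul_of_nonneg_left hP (by positivity)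
        _ = M * ((Ideal.absNorm 𝔣 : ℕ) : ℝ) * (1 + H + |w|) ^ d := by
            rw [hM, hRe, (by norm_num : (15 : ℝ) = 3 * 5), mul_pow]
            ring
    have hx : 0 < 1 + H + |w| := by linarith
    have h7 : M * ((Ideal.absNorm 𝔣 : ℕ) : ℝ) * (1 + H + |w|) ^ d =
        Real.exp (Real.log M + Real.log ((Ideal.absNorm 𝔣 : ℕ) : ℝ) +
          d * Real.log (1 + H + |w|)) := by
      rw [Real.exp_add, Real.exp_add, Real.exp_log (by linarith), Real.exp_log hN0,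
        Real.exp_nat_mul, Real.exp_log hx]
    refine (h5.trans h7.le).trans (Real.exp_le_exp.mpr ?_)
    have h8 : Real.log M ≤ Real.log M * ℒ := le_mul_of_one_le_right hlM hL1
    have h9 : (Real.log M + 2 + d) * ℒ ≤ A * ℒ := mul_le_mul_of_nonneg_right hAg (by linarith)
    have h10 : d * Real.log (1 + H + |w|) ≤ d * ℒ :=
      mul_le_mul_of_nonneg_left (by linarith) hd0
    have h12 : (Real.log M + 2 + d) * ℒ = Real.log M * ℒ + 2 * ℒ + d * ℒ := by ring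
    linarith
  · -- lower bound
    intro t
    have h1 : (1 : ℝ) < ((⟨2, t⟩ : ℂ) - (w : ℂ) * I).re := by rw [hre]; norm_num
    show A⁻¹ ≤ ‖F ((⟨2, t⟩ : ℂ) - (w : ℂ) * I)‖
    rw [hFL _ h1]
    refine le_trans ?_ (d6 _ (by rw [hre]))
    exact inv_anti₀ (by linarith) hAl
  · intro s h1
    exact hnz _ (by rw [hre]; exact h1)
  · intro s h1 h2
    show F (s - (w : ℂ) * I) ≠ 0
    refine c1 _ (by rw [hre]; linarith) (by rw [hre]; linarith) (hnz _ ?_)
    rw [Complex.sub_re, Complex.one_re, Complex.conj_re, hre]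
    linarith
  · intro s h1 h2
    rw [order_shift hF, order_shift hF, hosc]
    exact c2 _ (by rw [hre]; linarith) (by rw [hre]; exact h2)
  · intro m
    rcases Nat.eq_zero_or_pos m with rfl | hm
    · simp
    · rw [norm_mul, norm_cpow_I m hm.ne', mul_one, norm_mul, Complex.norm_real,
        Real.norm_of_nonneg ArithmeticFunction.vonMangoldt_nonneg]
      exact mul_le_mul_of_nonneg_right ((d7 m).trans hAf) ArithmeticFunction.vonMangoldt_nonneg
  · intro s hs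
    rw [hder]
    have hs' : 1 < (s - (w : ℂ) * I).re := by rw [hre]; exact hs
    have h5 : deriv F (s - (w : ℂ) * I) = deriv (LI ψ) (s - (w : ℂ) * I) := by
      refine Filter.EventuallyEq.deriv_eq ?_
      have h6 : {z : ℂ | 1 < z.re} ∈ 𝓝 (s - (w : ℂ) * I) :=
        (isOpen_lt continuous_const Complex.continuous_re).mem_nhds hs'
      filter_upwards [h6] with z hz
      exact hFL z hz
    show deriv F (s - (w : ℂ) * I) / F (s - (w : ℂ) * I) = _
    rw [h5, hFL _ hs', d4 _ hs']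
    congr 1
    apply tsum_congr
    intro m
    rcases Nat.eq_zero_or_pos m with rfl | hm
    · simp
    · have hn0 : (m : ℂ) ≠ 0 := by exact_mod_cast hm.ne'
      rw [mul_assoc (cc ψ m * (vonMangoldt m : ℂ)), ← Complex.cpow_add _ _ hn0]
      congr 2
      ring
  · intro s h1 h2 h3 h4
    rw [hder, hder, hosc]
    have h5 := c3 (s - (w : ℂ) * I) (by rw [hre]; linarith) (by rw [hre]; linarith) h4
    rw [← hd] at h5
    have hlR : Real.log R = Real.log ((Ideal.absNorm 𝔣 : ℕ) : ℝ) + Real.log D := by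
      rw [hRe, Real.log_mul hN0.ne' (by linarith)]
    have h6 : Real.log (1 + |(s - (w : ℂ) * I).im|) ≤ Real.log (1 + H + |w|) := by
      apply Real.log_le_log (by positivity)
      have := himH s h3
      linarith
    have h8 : (Real.log D + C + 2 * d) * E ≤ A * E :=
      mul_le_mul_of_nonneg_right hAd (by linarith)
    have h9 : Real.log D + C ≤ (Real.log D + C) * E :=
      le_mul_of_one_le_right (by linarith) hE1
    have h10 : 2 * (d : ℝ) * Real.log (1 + |(s - (w : ℂ) * I).im|) ≤ 2 * d * E :=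
      mul_le_mul_of_nonneg_left (by linarith) (by positivity)
    have h11 : deriv F (s - (w : ℂ) * I) / F (s - (w : ℂ) * I) +
        ((Real.log ((Ideal.absNorm 𝔣 : ℕ) : ℝ) : ℝ) : ℂ) +
        (starRingEnd ℂ) (deriv F (1 - (starRingEnd ℂ) (s - (w : ℂ) * I)) /
          F (1 - (starRingEnd ℂ) (s - (w : ℂ) * I))) =
        (deriv F (s - (w : ℂ) * I) / F (s - (w : ℂ) * I) + ((Real.log R : ℝ) : ℂ) +
        (starRingEnd ℂ) (deriv F (1 - (starRingEnd ℂ) (s - (w : ℂ) * I)) /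
          F (1 - (starRingEnd ℂ) (s - (w : ℂ) * I)))) - ((Real.log D : ℝ) : ℂ) := by
      rw [hlR]
      push_cast
      ring
    rw [h11]
    refine (norm_sub_le _ _).trans ?_
    rw [Complex.norm_real, Real.norm_of_nonneg hlD]
    linarith

end Pool.Agent.Helper46.LZ
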