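import Pool.Agent.Helper13.ZH.Gam
import Pool.Graph.R_pool_sql_team_seeded_620a6dc7.A856.BH.GoodLK

/-!
# The factor of the functional equation near the real axis (shifts at least `1/2`)
-/

set_option autoImplicit false

open Complex Filter Topology MeasureTheory

namespace Pool.Agent.Helper46.LZ

open Pool.Agent.Helper13.ZH (Xm Xm_diff Xm_fe)
open Pool.Agent.N784.HC (GGm FEm LXm fe_asymM)
open Pool.Agent.A856.SD.GammaJ (Gammaℝ_diff)
open Pool.Agent.A856.BH.GoodLHAux (ne_nat ev_strip)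
open H370.DL (refl analyticAt_refl logDeriv_refl order_refl)

/-- the digamma function near the imaginary axis -/
lemma psi_bd8 (j : ℕ) : ∃ C : ℝ, 0 ≤ C ∧ ∀ u : ℂ, 1 / 8 ≤ u.re → u.re ≤ 3 / 4 + j →
    ‖logDeriv Gamma u‖ ≤ C + Real.log (1 + |u.im|) := by
  obtain ⟨C, hC0, hC⟩ := Pool.Agent.A856.BH.GoodLKAux.psi_bd j
  refine ⟨C + 8, by linarith, fun u h1 h2 => ?_⟩
  have hre : (u + 1).re = u.re + 1 := by rw [Complex.add_re, Complex.one_re]
  have him : (u + 1).im = u.im := by rw [Complex.add_im, Complex.one_im, add_zero]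
  have h4 := hC (u + 1) (by rw [hre]; linarith) (by rw [hre]; linarith)
  rw [him] at h4
  have h5 : logDeriv Gamma u = logDeriv Gamma (u + 1) - u⁻¹ := by
    have h6 := Complex.digamma_apply_add_one u (ne_nat (by linarith))
    have h7 : logDeriv Gamma (u + 1) = logDeriv Gamma u + u⁻¹ := h6
    rw [h7]
    ring
  have h7 : ‖u⁻¹‖ ≤ 8 := by
    rw [norm_inv]
    have h8 : (1 / 8 : ℝ) ≤ ‖u‖ := by
      have := Complex.re_le_norm u
      linarith
    calc ‖u‖⁻¹ ≤ (1 / 8 : ℝ)⁻¹ := inv_anti₀ (by norm_num) h8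
      _ = 8 := by norm_num
  rw [h5]
  have h9 := norm_sub_le (logDeriv Gamma (u + 1)) (u⁻¹)
  linarith

lemma ldGR {u : ℂ} (hu : 0 < u.re) :
    logDeriv Gammaℝ u = -((Real.log Real.pi : ℝ) : ℂ) / 2 + logDeriv Gamma (u / 2) / 2 := by
  have hpi : (Real.pi : ℂ) ≠ 0 := by exact_mod_cast Real.pi_pos.ne'
  have hu2 : 0 < (u / 2).re := by simp; linarith
  have d1 : HasDerivAt (fun z : ℂ => (Real.pi : ℂ) ^ (-z / 2))
      ((Real.pi : ℂ) ^ (-u / 2) * Complex.log (Real.pi : ℂ) * (-1 / 2)) u := by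
    have h1 : HasDerivAt (fun z : ℂ => -z / 2) (-1 / 2) u :=
      (hasDerivAt_id u).neg.div_const 2
    exact h1.const_cpow (Or.inl hpi)
  have d2 : HasDerivAt (fun z : ℂ => Gamma (z / 2)) (deriv Gamma (u / 2) * (1 / 2)) u := by
    have h1 : HasDerivAt (fun z : ℂ => z / 2) (1 / 2) u := (hasDerivAt_id u).div_const 2
    exact HasDerivAt.comp u (differentiableAt_Gamma _ (ne_nat hu2)).hasDerivAt h1
  have e0 : Gammaℝ = fun z : ℂ => (Real.pi : ℂ) ^ (-z / 2) * Gamma (z / 2) := by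
    funext z; exact Complex.Gammaℝ_def z
  have d3 := d1.mul d2
  have d4 : HasDerivAt Gammaℝ ((Real.pi : ℂ) ^ (-u / 2) * Complex.log (Real.pi : ℂ) * (-1 / 2) *
      Gamma (u / 2) + (Real.pi : ℂ) ^ (-u / 2) * (deriv Gamma (u / 2) * (1 / 2))) u := by
    rw [e0]
    exact d3
  have e1 := d4.deriv
  have hg := Gamma_ne_zero_of_re_pos hu2
  have hp : (Real.pi : ℂ) ^ (-u / 2) ≠ 0 := by
    rw [Ne, cpow_eq_zero_iff]
    exact fun h => hpi h.1
  rw [logDeriv_apply, e1, Complex.Gammaℝ_def, logDeriv_apply]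
  have hlog : Complex.log (Real.pi : ℂ) = ((Real.log Real.pi : ℝ) : ℂ) := by
    rw [Complex.ofReal_log Real.pi_pos.le]
  rw [hlog]
  generalize (Real.pi : ℂ) ^ (-u / 2) = P at *
  generalize Gamma (u / 2) = G at *
  field_simp

lemma GR_bd (j : ℕ) : ∃ C : ℝ, 0 ≤ C ∧ ∀ u : ℂ, 1 / 4 ≤ u.re → u.re ≤ 3 / 2 + 2 * j →
    ‖logDeriv Gammaℝ u‖ ≤ C + Real.log (1 + |u.im|) := by
  obtain ⟨C, hC0, hC⟩ := psi_bd8 j
  have hlp : 0 ≤ Real.log Real.pi := Real.log_nonneg (by linarith [Real.pi_gt_three])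
  refine ⟨Real.log Real.pi + C, by linarith, fun u h1 h2 => ?_⟩
  have hre : (u / 2).re = u.re / 2 := by simp
  have him : (u / 2).im = u.im / 2 := by simp
  have h3 := hC (u / 2) (by rw [hre]; linarith) (by rw [hre]; linarith)
  rw [him] at h3
  have h4 : Real.log (1 + |u.im / 2|) ≤ Real.log (1 + |u.im|) := by
    apply Real.log_le_log (by positivity)
    rw [abs_div, abs_of_pos (by norm_num : (0 : ℝ) < 2)]
    have := abs_nonneg u.im
    linarith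
  have h5 : 0 ≤ Real.log (1 + |u.im|) := Real.log_nonneg (by
    have := abs_nonneg u.im
    linarith)
  rw [ldGR (by linarith)]
  refine (norm_add_le _ _).trans ?_
  rw [norm_div, norm_div, norm_neg, Complex.norm_real, Real.norm_of_nonneg hlp,
    Complex.norm_ofNat]
  linarith

variable {ι : Type} [Fintype ι]

lemma re_a (s : ℂ) (μ : ℝ) : (1 - s + (μ : ℂ)).re = 1 - s.re + μ := by simp

lemma re_b (s : ℂ) (μ : ℝ) : (s + (μ : ℂ)).re = s.re + μ := by simp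

lemma im_a (s : ℂ) (μ : ℝ) : (1 - s + (μ : ℂ)).im = -s.im := by simp

lemma im_b (s : ℂ) (μ : ℝ) : (s + (μ : ℂ)).im = s.im := by simp

/-- one factor -/
lemma ld_one {μ : ℝ} (hμ : 1 / 2 ≤ μ) {s : ℂ} (h1 : -1 / 2 < s.re) (h2 : s.re < 1) :
    DifferentiableAt ℂ (fun z : ℂ => Gammaℝ (1 - z + μ) * (Gammaℝ (z + μ))⁻¹) s ∧
    Gammaℝ (1 - s + μ) * (Gammaℝ (s + μ))⁻¹ ≠ 0 ∧
    logDeriv (fun z : ℂ => Gammaℝ (1 - z + μ) * (Gammaℝ (z + μ))⁻¹) s =
      -logDeriv Gammaℝ (1 - s + μ) - logDeriv Gammaℝ (s + μ) := by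
  have p1 : 0 < (1 - s + (μ : ℂ)).re := by rw [re_a]; linarith
  have p2 : 0 < (s + (μ : ℂ)).re := by rw [re_b]; linarith
  have n1 := Complex.Gammaℝ_ne_zero_of_re_pos p1
  have n2 := Complex.Gammaℝ_ne_zero_of_re_pos p2
  have d1 : HasDerivAt (fun z : ℂ => Gammaℝ (1 - z + μ)) (deriv Gammaℝ (1 - s + μ) * (-1)) s := by
    have h1 : HasDerivAt (fun z : ℂ => 1 - z + (μ : ℂ)) (-1) s :=
      ((hasDerivAt_id s).const_sub 1).add_const _
    exact HasDerivAt.comp s (Gammaℝ_diff p1).hasDerivAt h1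
  have d2 : HasDerivAt (fun z : ℂ => Gammaℝ (z + μ)) (deriv Gammaℝ (s + μ)) s := by
    have h1 : HasDerivAt (fun z : ℂ => z + (μ : ℂ)) 1 s := (hasDerivAt_id s).add_const _
    simpa [Function.comp_def] using HasDerivAt.comp s (Gammaℝ_diff p2).hasDerivAt h1
  have d3 := d1.mul (d2.fun_inv n2)
  refine ⟨d3.differentiableAt, mul_ne_zero n1 (inv_ne_zero n2), ?_⟩
  have e : deriv (fun z : ℂ => Gammaℝ (1 - z + μ) * (Gammaℝ (z + μ))⁻¹) s = _ := d3.deriv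
  rw [logDeriv_apply, e, logDeriv_apply, logDeriv_apply]
  generalize Gammaℝ (1 - s + μ) = G1 at *
  generalize Gammaℝ (s + μ) = G2 at *
  field_simp
  ring

/-- the logarithmic derivative of the factor -/
lemma ld_Xm {w : ℂ} (hw : w ≠ 0) {R : ℝ} (hR : 0 < R) {μ : ι → ℝ} (hμ : ∀ i, 1 / 2 ≤ μ i)
    {s : ℂ} (h1 : -1 / 2 < s.re) (h2 : s.re < 1) :
    Xm w R μ s ≠ 0 ∧
    logDeriv (Xm w R μ) s = -((Real.log R : ℝ) : ℂ) -
      ∑ i, (logDeriv Gammaℝ (1 - s + μ i) + logDeriv Gammaℝ (s + μ i)) := by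
  have hRc : (R : ℂ) ≠ 0 := ofReal_ne_zero.mpr hR.ne'
  have hp : (R : ℂ) ^ (1 / 2 - s) ≠ 0 := by
    rw [Ne, cpow_eq_zero_iff]
    exact fun h => hRc h.1
  have hA0 : w * (R : ℂ) ^ (1 / 2 - s) ≠ 0 := mul_ne_zero hw hp
  have dA : HasDerivAt (fun z : ℂ => w * (R : ℂ) ^ (1 / 2 - z))
      (w * ((R : ℂ) ^ (1 / 2 - s) * Complex.log (R : ℂ) * (-1))) s := by
    have h1 : HasDerivAt (fun z : ℂ => 1 / 2 - z) (-1) s := (hasDerivAt_id s).const_sub _
    exact (h1.const_cpow (Or.inl hRc)).const_mul w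
  have ldA : logDeriv (fun z : ℂ => w * (R : ℂ) ^ (1 / 2 - z)) s = -((Real.log R : ℝ) : ℂ) := by
    rw [logDeriv_apply, dA.deriv]
    have hlog : Complex.log (R : ℂ) = ((Real.log R : ℝ) : ℂ) := by
      rw [Complex.ofReal_log hR.le]
    rw [hlog]
    generalize (R : ℂ) ^ (1 / 2 - s) = P at *
    field_simp
  have hB0 : ∏ i, (Gammaℝ (1 - s + μ i) * (Gammaℝ (s + μ i))⁻¹) ≠ 0 :=
    Finset.prod_ne_zero_iff.2 fun i _ => (ld_one (hμ i) h1 h2).2.1
  have dB : DifferentiableAt ℂ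
      (fun z : ℂ => ∏ i, (Gammaℝ (1 - z + μ i) * (Gammaℝ (z + μ i))⁻¹)) s :=
    DifferentiableAt.fun_finsetProd fun i _ => (ld_one (hμ i) h1 h2).1
  have ldB : logDeriv (fun z : ℂ => ∏ i, (Gammaℝ (1 - z + μ i) * (Gammaℝ (z + μ i))⁻¹)) s =
      ∑ i, logDeriv (fun z : ℂ => Gammaℝ (1 - z + μ i) * (Gammaℝ (z + μ i))⁻¹) s :=
    logDeriv_prod (f := fun i (z : ℂ) => Gammaℝ (1 - z + μ i) * (Gammaℝ (z + μ i))⁻¹)
      (fun i _ => (ld_one (hμ i) h1 h2).2.1) (fun i _ => (ld_one (hμ i) h1 h2).1)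
  refine ⟨mul_ne_zero hA0 hB0, ?_⟩
  have h3 : logDeriv (Xm w R μ) s = logDeriv (fun z : ℂ => w * (R : ℂ) ^ (1 / 2 - z)) s +
      logDeriv (fun z : ℂ => ∏ i, (Gammaℝ (1 - z + μ i) * (Gammaℝ (z + μ i))⁻¹)) s :=
    logDeriv_mul s hA0 hB0 dA.differentiableAt dB
  have h4 : ∑ i, (-logDeriv Gammaℝ (1 - s + μ i) - logDeriv Gammaℝ (s + μ i)) =
      -∑ i, (logDeriv Gammaℝ (1 - s + μ i) + logDeriv Gammaℝ (s + μ i)) := by
    rw [← Finset.sum_neg_distrib]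
    refine Finset.sum_congr rfl fun i _ => ?_
    ring
  rw [h3, ldA, ldB, Finset.sum_congr rfl fun i _ => (ld_one (hμ i) h1 h2).2.2, h4]
  ring

lemma Xm_an (w : ℂ) {R : ℝ} (hR : 0 < R) {μ : ι → ℝ} (hμ : ∀ i, 1 / 2 ≤ μ i)
    {s : ℂ} (h1 : -1 / 2 < s.re) (h2 : s.re < 1) : AnalyticAt ℂ (Xm w R μ) s := by
  rw [analyticAt_iff_eventually_differentiableAt]
  filter_upwards [ev_strip h1 h2] with z hz
  exact Xm_diff w hR (fun i => by linarith [hμ i]) hz.2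

/-- **the bound to the left of the critical line**, near the real axis -/
lemma left_bdm (ι : Type) [Fintype ι] (j : ℕ) : ∃ C : ℝ, 0 ≤ C ∧ ∀ (R : ℝ), 0 < R →
    ∀ (μ : ι → ℝ), (∀ i, 1 / 2 ≤ μ i ∧ μ i ≤ j) → ∀ F : ℂ → ℂ, FEm R μ F →
    (∀ s : ℂ, -1 / 2 < s.re → s.re < 1 → F (1 - (starRingEnd ℂ) s) ≠ 0 → F s ≠ 0) ∧
    (∀ s : ℂ, -1 / 2 < s.re → s.re < 1 →
      analyticOrderAt F (1 - (starRingEnd ℂ) s) = analyticOrderAt F s) ∧
    ∀ s : ℂ, -1 / 4 ≤ s.re → s.re ≤ 1 / 2 → F s ≠ 0 →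
    ‖deriv F s / F s + ((Real.log R : ℝ) : ℂ) +
      (starRingEnd ℂ) (deriv F (1 - (starRingEnd ℂ) s) /
        F (1 - (starRingEnd ℂ) s))‖ ≤ C + 2 * Fintype.card ι * Real.log (1 + |s.im|) := by
  obtain ⟨C, hC0, hC⟩ := GR_bd j
  refine ⟨2 * Fintype.card ι * C, by positivity, fun R hR μ hμ F hF => ?_⟩
  obtain ⟨w, hw, hfe⟩ := fe_asymM hR hF
  have hw0 : w ≠ 0 := by
    intro h
    rw [h, norm_zero] at hw
    exact zero_ne_one hw
  have hμ0 : ∀ i, 0 ≤ μ i := fun i => by linarith [(hμ i).1]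
  have hμ1 : ∀ i, 1 / 2 ≤ μ i := fun i => (hμ i).1
  have hFe : ∀ z : ℂ, z.re < 1 → F z = Xm w R μ z * refl F z :=
    fun z hz => Xm_fe hR hμ0 hF hfe z hz
  have hd : Differentiable ℂ F := hF.diff
  have hev : ∀ s : ℂ, -1 / 2 < s.re → s.re < 1 → F =ᶠ[𝓝 s] Xm w R μ * refl F := by
    intro s g1 g2
    filter_upwards [ev_strip g1 g2] with z hz
    exact hFe z hz.2
  refine ⟨?_, ?_, ?_⟩
  · intro s g1 g2 h3
    rw [hFe s g2]
    refine mul_ne_zero (ld_Xm hw0 hR hμ1 g1 g2).1 ?_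
    unfold H370.DL.refl
    rw [map_ne_zero]
    exact h3
  · intro s g1 g2
    have ha : AnalyticAt ℂ F (1 - (starRingEnd ℂ) s) := hd.analyticAt _
    have hX : AnalyticAt ℂ (Xm w R μ) s := Xm_an w hR hμ1 g1 g2
    rw [analyticOrderAt_congr (hev s g1 g2), analyticOrderAt_mul hX (analyticAt_refl ha),
      hX.analyticOrderAt_eq_zero.mpr (ld_Xm hw0 hR hμ1 g1 g2).1, zero_add, order_refl ha]
  · intro s h1 h2 h4
    have g1 : -1 / 2 < s.re := by linarith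
    have g2 : s.re < 1 := by linarith
    have ha : AnalyticAt ℂ F (1 - (starRingEnd ℂ) s) := hd.analyticAt _
    have hr : refl F s ≠ 0 := by
      intro h
      apply h4
      rw [hFe s g2, h, mul_zero]
    have e2 : logDeriv F s = logDeriv (Xm w R μ) s + logDeriv (refl F) s := by
      rw [(logDeriv_congr_nhds (hev s g1 g2)).eq_of_nhds]
      exact logDeriv_mul s (ld_Xm hw0 hR hμ1 g1 g2).1 hr
        (Xm_an w hR hμ1 g1 g2).differentiableAt (analyticAt_refl ha).differentiableAt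
    rw [logDeriv_refl ha.differentiableAt, (ld_Xm hw0 hR hμ1 g1 g2).2] at e2
    change ‖logDeriv F s + ((Real.log R : ℝ) : ℂ) +
      (starRingEnd ℂ) (logDeriv F (1 - (starRingEnd ℂ) s))‖ ≤ _
    rw [e2]
    have e3 : -((Real.log R : ℝ) : ℂ) -
        ∑ i, (logDeriv Gammaℝ (1 - s + μ i) + logDeriv Gammaℝ (s + μ i)) +
        -(starRingEnd ℂ) (logDeriv F (1 - (starRingEnd ℂ) s)) + ((Real.log R : ℝ) : ℂ) +
        (starRingEnd ℂ) (logDeriv F (1 - (starRingEnd ℂ) s)) =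
        -∑ i, (logDeriv Gammaℝ (1 - s + μ i) + logDeriv Gammaℝ (s + μ i)) := by ring
    rw [e3, norm_neg]
    refine (norm_sum_le _ _).trans ?_
    have hb : ∀ i, ‖logDeriv Gammaℝ (1 - s + μ i) + logDeriv Gammaℝ (s + μ i)‖ ≤
        2 * C + 2 * Real.log (1 + |s.im|) := by
      intro i
      have b1 := hC (1 - s + μ i) (by rw [re_a]; linarith [hμ1 i]) (by
        rw [re_a]
        have := (hμ i).2
        have hj : (0 : ℝ) ≤ j := Nat.cast_nonneg j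
        linarith)
      have b2 := hC (s + μ i) (by rw [re_b]; linarith [hμ1 i]) (by
        rw [re_b]
        have := (hμ i).2
        have hj : (0 : ℝ) ≤ j := Nat.cast_nonneg j
        linarith)
      rw [im_a, abs_neg] at b1
      rw [im_b] at b2
      refine (norm_add_le _ _).trans ?_
      linarith
    refine (Finset.sum_le_sum fun i _ => hb i).trans (le_of_eq ?_)
    rw [Finset.sum_const, Finset.card_univ, nsmul_eq_mul]
    ring

end Pool.Agent.Helper46.LZ
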